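import Mathlib

/-!
No lattice has finite deficiency for phase retrieval from short-time Fourier transform samples.
-/

set_option autoImplicit false
set_option linter.unusedVariables false

noncomputable section

namespace Pool.Agent.Results.MP_19ca7b_an.NoFiniteDeficiency

open MeasureTheory Complex
open scoped ComplexConjugate ENNReal

/-- The short-time Fourier transform `V_g f(x,ω) = ∫ f(t) conj(g(t-x)) e^{-2π i ω t} dt`. -/
def stft (g f : ℝ → ℂ) (x ω : ℝ) : ℂ :=
  ∫ t : ℝ, f t * conj (g (t - x)) * exp (-(2 * Real.pi * ω * t * I))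

/-- The lattice `A ℤ²`. -/
def lattice (A : Matrix (Fin 2) (Fin 2) ℝ) : Set (ℝ × ℝ) :=
  {z | ∃ m n : ℤ, z.1 = A 0 0 * m + A 0 1 * n ∧ z.2 = A 1 0 * m + A 1 1 * n}

/-- `(g, Λ)` has the phase retrieval uniqueness property in `L²(ℝ)`. -/
def Uniqueness (g : ℝ → ℂ) (Λ : Set (ℝ × ℝ)) : Prop :=
  ∀ f h : ℝ → ℂ, MemLp f 2 → MemLp h 2 →
    (∀ z ∈ Λ, ‖stft g f z.1 z.2‖ = ‖stft g h z.1 z.2‖) →
    ∃ α : ℝ, f =ᵐ[volume] fun t => exp (α * I) * h t

/-! ### The operator -/

/-- unimodular factor -/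
def ex (s : ℝ) : ℂ := exp (s * I)

lemma ex_add (s t : ℝ) : ex (s + t) = ex s * ex t := by
  unfold ex; rw [← exp_add]; congr 1; push_cast; ring

lemma ex_norm (s : ℝ) : ‖ex s‖ = 1 := by
  unfold ex; exact norm_exp_ofReal_mul_I s

lemma ex_zero : ex 0 = 1 := by unfold ex; simp

lemma ex_conj (s : ℝ) : conj (ex s) = ex (-s) := by
  unfold ex; rw [← exp_conj]; congr 1; simp

lemma ex_cont : Continuous ex := by unfold ex; fun_prop

lemma ex_ne (s : ℝ) : ex s ≠ 0 := by unfold ex; exact exp_ne_zero _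

variable (v₁ v₂ : ℝ)

/-- symmetric time-frequency shift -/
def U : (ℝ → ℂ) →ₗ[ℂ] (ℝ → ℂ) where
  toFun f := fun t => ex (-(Real.pi * v₁ * v₂) + 2 * Real.pi * v₂ * t) * f (t - v₁)
  map_add' f h := by funext t; simp; ring
  map_smul' c f := by funext t; simp; ring

/-- its powers applied to the reflection of the window -/
def phi (g : ℝ → ℂ) (n : ℕ) (t : ℝ) : ℂ :=
  ex (-(Real.pi * n ^ 2 * v₁ * v₂) + 2 * Real.pi * n * v₂ * t) * g (n * v₁ - t)

lemma U_phi (g : ℝ → ℂ) (n : ℕ) : U v₁ v₂ (phi v₁ v₂ g n) = phi v₁ v₂ g (n + 1) := by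
  funext t
  simp only [U, phi, LinearMap.coe_mk, AddHom.coe_mk]
  rw [← mul_assoc, ← ex_add]
  congr 2
  · push_cast; ring
  · push_cast; ring

lemma U_pow (g : ℝ → ℂ) (n : ℕ) : ((U v₁ v₂) ^ n) (phi v₁ v₂ g 0) = phi v₁ v₂ g n := by
  induction n with
  | zero => simp
  | succ n ih => rw [pow_succ', Module.End.mul_apply, ih, U_phi]

lemma U_memLp {f : ℝ → ℂ} (hf : MemLp f 2) : MemLp (U v₁ v₂ f) 2 := by
  have h1 : MemLp (fun t => f (t - v₁)) 2 :=
    hf.comp_measurePreserving (measurePreserving_sub_right volume v₁)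
  have h2 : AEStronglyMeasurable (U v₁ v₂ f) volume := by
    have : Continuous (fun t : ℝ => ex (-(Real.pi * v₁ * v₂) + 2 * Real.pi * v₂ * t)) :=
      ex_cont.comp (by fun_prop)
    exact this.aestronglyMeasurable.mul h1.1
  refine h1.of_le h2 (Filter.Eventually.of_forall fun t => ?_)
  simp only [U, LinearMap.coe_mk, AddHom.coe_mk, norm_mul, ex_norm, one_mul]
  exact le_rfl

lemma phi_memLp {g : ℝ → ℂ} (hg : MemLp g 2) (n : ℕ) : MemLp (phi v₁ v₂ g n) 2 := by
  have h0 : MemLp (phi v₁ v₂ g 0) 2 := by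
    have h1 : MemLp (fun t => g (-t)) 2 := hg.comp_measurePreserving (Measure.measurePreserving_neg volume)
    have : phi v₁ v₂ g 0 = fun t => g (-t) := by
      funext t; simp [phi, ex_zero]
    rw [this]; exact h1
  induction n with
  | zero => exact h0
  | succ n ih => rw [← U_phi]; exact U_memLp v₁ v₂ ih

lemma aeval_memLp {g : ℝ → ℂ} (hg : MemLp g 2) (q : Polynomial ℂ) :
    MemLp (Polynomial.aeval (U v₁ v₂) q (phi v₁ v₂ g 0)) 2 := by
  rw [Polynomial.aeval_eq_sum_range, LinearMap.sum_apply]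
  apply memLp_finsetSum'
  intro i _
  rw [LinearMap.smul_apply, U_pow]
  exact (phi_memLp v₁ v₂ hg i).const_smul _

/-! ### No eigenfunctions -/

lemma periodic_zero {φ : ℝ → ℝ≥0∞} {v : ℝ} (hv : 0 < v) (hm : Measurable φ)
    (hfin : ∫⁻ t, φ t ≠ ⊤) (hper : (fun t => φ (t + v)) =ᵐ[volume] φ) : ∫⁻ t, φ t = 0 := by
  have hn : ∀ n : ℕ, (fun t => φ (t + n * v)) =ᵐ[volume] φ := by
    intro n
    induction n with
    | zero => simp
    | succ n ih =>
      have h1 : (fun t => φ (t + v + n * v)) =ᵐ[volume] fun t => φ (t + v) :=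
        (quasiMeasurePreserving_add_right (volume : Measure ℝ) v).ae_eq_comp ih
      have h2 : (fun t => φ (t + (n + 1 : ℕ) * v)) = fun t => φ (t + v + n * v) := by
        funext t; congr 1; push_cast; ring
      rw [h2]
      exact h1.trans hper
  have hwin : ∀ (s : ℝ) (n : ℕ), ∫⁻ t in Set.Ioc (s + n * v) (s + n * v + v), φ t =
      ∫⁻ t in Set.Ioc s (s + v), φ t := by
    intro s n
    rw [← lintegral_indicator measurableSet_Ioc, ← lintegral_indicator measurableSet_Ioc,
      ← lintegral_add_right_eq_self (μ := (volume : Measure ℝ)) _ (n * v)]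
    apply lintegral_congr_ae
    filter_upwards [hn n] with t ht
    by_cases hts : t ∈ Set.Ioc s (s + v)
    · rw [Set.indicator_of_mem hts, Set.indicator_of_mem]
      · exact ht
      · constructor <;> [linarith [hts.1]; linarith [hts.2]]
    · rw [Set.indicator_of_notMem hts, Set.indicator_of_notMem]
      intro h
      apply hts
      constructor <;> [linarith [h.1]; linarith [h.2]]
  have hzero : ∀ s : ℝ, ∫⁻ t in Set.Ioc s (s + v), φ t = 0 := by
    intro s
    by_contra hne
    apply hfin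
    have h1 : ∑' n : ℕ, ∫⁻ t in Set.Ioc (s + n * v) (s + n * v + v), φ t ≤ ∫⁻ t, φ t := by
      rw [← lintegral_iUnion (fun n => measurableSet_Ioc)]
      · exact setLIntegral_le_lintegral _ _
      · intro m n hmn
        rw [Function.onFun, Set.disjoint_left]
        rintro t ⟨h1, h2⟩ ⟨h3, h4⟩
        rcases lt_or_gt_of_ne hmn with h | h
        · have : (m : ℝ) + 1 ≤ n := by exact_mod_cast h
          nlinarith
        · have : (n : ℝ) + 1 ≤ m := by exact_mod_cast h
          nlinarith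
    simp_rw [hwin] at h1
    rw [ENNReal.tsum_const_eq_top_of_ne_zero hne] at h1
    exact top_le_iff.mp h1
  have hcov : (⋃ n : ℤ, Set.Ioc (n • v) ((n + 1) • v)) = Set.univ := iUnion_Ioc_zsmul hv
  rw [← setLIntegral_univ, ← hcov]
  rw [← nonpos_iff_eq_zero]
  refine (lintegral_iUnion_le _ _).trans ?_
  rw [nonpos_iff_eq_zero, ENNReal.tsum_eq_zero]
  intro n
  have := hzero (n • v)
  rw [show (n + 1) • v = n • v + v by rw [add_smul, one_smul]]
  exact this

lemma no_eigen {w : ℝ → ℂ} (hw : MemLp w 2) {lam : ℂ} (hv : v₁ ≠ 0 ∨ v₂ ≠ 0)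
    (he : U v₁ v₂ w =ᵐ[volume] lam • w) : w =ᵐ[volume] 0 := by
  by_cases h1 : v₁ = 0
  · subst h1
    have h2 : v₂ ≠ 0 := by tauto
    obtain ⟨T, hT⟩ : ∃ T : Set ℝ, T = {t : ℝ | ex (2 * Real.pi * v₂ * t) = lam} := ⟨_, rfl⟩
    have hcount : T.Countable := by
      rcases T.eq_empty_or_nonempty with h | ⟨t₀, ht₀⟩
      · rw [h]; exact Set.countable_empty
      · apply (Set.countable_range (fun n : ℤ => t₀ + n / v₂)).mono
        intro t ht
        rw [hT] at ht ht₀
        have h3 : ex (2 * Real.pi * v₂ * t) = ex (2 * Real.pi * v₂ * t₀) := by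
          rw [ht.out, ht₀.out]
        unfold ex at h3
        rw [exp_eq_exp_iff_exists_int] at h3
        obtain ⟨n, hn⟩ := h3
        refine ⟨n, ?_⟩
        have h4 : (2 * Real.pi * v₂ * t : ℝ) = 2 * Real.pi * v₂ * t₀ + n * (2 * Real.pi) := by
          have h5 : ((2 * Real.pi * v₂ * t : ℝ) : ℂ) * I =
              ((2 * Real.pi * v₂ * t₀ + n * (2 * Real.pi) : ℝ) : ℂ) * I := by
            rw [hn]; push_cast; ring
          exact_mod_cast mul_right_cancel₀ I_ne_zero h5
        have hpi := Real.pi_pos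
        field_simp
        have h6 : 2 * Real.pi * (v₂ * t) = 2 * Real.pi * (v₂ * t₀ + n) := by linarith
        have h7 := mul_left_cancel₀ (by positivity : (2 * Real.pi) ≠ 0) h6
        linarith
    have hnull : volume T = 0 := hcount.measure_zero _
    have hae : ∀ᵐ t : ℝ, t ∉ T := by
      rw [ae_iff]; simpa using hnull
    filter_upwards [he, hae] with t ht htT
    simp only [U, LinearMap.coe_mk, AddHom.coe_mk, Pi.smul_apply, smul_eq_mul, sub_zero, mul_zero,
      zero_mul, neg_zero, zero_add] at ht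
    rw [hT] at htT
    have h3 : (ex (2 * Real.pi * v₂ * t) - lam) * w t = 0 := by rw [sub_mul, ht, sub_self]
    rcases mul_eq_zero.mp h3 with h | h
    · exact absurd (sub_eq_zero.mp h) htT
    · exact h
  · -- translations
    obtain ⟨w', hw'm, hww'⟩ : ∃ w' : ℝ → ℂ, Measurable w' ∧ w =ᵐ[volume] w' :=
      ⟨hw.1.mk w, hw.1.stronglyMeasurable_mk.measurable, hw.1.ae_eq_mk⟩
    obtain ⟨φ, hφ⟩ : ∃ φ : ℝ → ℝ≥0∞, φ = fun t => (‖w' t‖ₑ) ^ 2 := ⟨_, rfl⟩
    have hm : Measurable φ := by rw [hφ]; exact hw'm.enorm.pow_const 2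
    have hshift : ∀ᵐ t : ℝ, w (t - v₁) = w' (t - v₁) :=
      (measurePreserving_sub_right (volume : Measure ℝ) v₁).quasiMeasurePreserving.ae hww'
    have hrel : ∀ᵐ t : ℝ, φ (t - v₁) = (‖lam‖ₑ) ^ 2 * φ t := by
      filter_upwards [he, hww', hshift] with t h1 h2 h3
      rw [hφ]
      simp only
      rw [← h2, ← h3, ← mul_pow, ← enorm_mul]
      simp only [U, LinearMap.coe_mk, AddHom.coe_mk, Pi.smul_apply, smul_eq_mul] at h1
      rw [← h1, enorm_mul]
      have : ‖ex (-(Real.pi * v₁ * v₂) + 2 * Real.pi * v₂ * t)‖ₑ = 1 := by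
        rw [← ofReal_norm, ex_norm]; simp
      rw [this, one_mul]
    have hfin : ∫⁻ t, φ t ≠ ⊤ := by
      have h2 : MemLp w' 2 := (memLp_congr_ae hww').mp hw
      have h3 := h2.2
      rw [eLpNorm_lt_top_iff_lintegral_rpow_enorm_lt_top (by norm_num) (by norm_num)] at h3
      rw [hφ]
      refine ne_of_lt ?_
      convert h3 using 2
      funext t
      simp
    have hI : ∫⁻ t, φ t = (‖lam‖ₑ) ^ 2 * ∫⁻ t, φ t := by
      rw [← lintegral_const_mul _ hm, ← lintegral_congr_ae hrel,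
        lintegral_sub_right_eq_self (μ := (volume : Measure ℝ)) φ v₁]
    have hfinal : ∫⁻ t, φ t = 0 := by
      by_contra hne
      have hl : (‖lam‖ₑ) ^ 2 = 1 := by
        have h2 : (‖lam‖ₑ) ^ 2 * ∫⁻ t, φ t = 1 * ∫⁻ t, φ t := by rw [one_mul]; exact hI.symm
        exact (ENNReal.mul_left_inj hne hfin).mp h2
      have hper : ∀ᵐ t : ℝ, φ (t - v₁) = φ t := by
        filter_upwards [hrel] with t ht
        rw [ht, hl, one_mul]
      apply hne
      rcases lt_or_gt_of_ne h1 with h | h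
      · apply periodic_zero (v := -v₁) (by linarith) hm hfin
        filter_upwards [hper] with t ht
        rw [← sub_eq_add_neg]; exact ht
      · apply periodic_zero (v := v₁) h hm hfin
        have h2 : ∀ᵐ t : ℝ, φ (t + v₁ - v₁) = φ (t + v₁) :=
          (quasiMeasurePreserving_add_right (volume : Measure ℝ) v₁).ae hper
        filter_upwards [h2] with t ht
        rw [← ht, add_sub_cancel_right]
    rw [lintegral_eq_zero_iff hm] at hfinal
    filter_upwards [hww', hfinal] with t h2 h3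
    rw [h2]
    rw [hφ] at h3
    simpa using h3

/-- the functions `phi n` are linearly independent modulo null functions -/
lemma lin_indep {g : ℝ → ℂ} (hg : MemLp g 2) (hg0 : ¬ g =ᵐ[volume] 0) (hv : v₁ ≠ 0 ∨ v₂ ≠ 0)
    (p : Polynomial ℂ) (hp : Polynomial.aeval (U v₁ v₂) p (phi v₁ v₂ g 0) =ᵐ[volume] 0) :
    p = 0 := by
  by_contra hne
  obtain ⟨k, hk⟩ : ∃ k, k = p.natDegree := ⟨_, rfl⟩
  induction k using Nat.strong_induction_on generalizing p with
  | _ k ih =>
    by_cases hd : p.natDegree = 0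
    · -- constant
      rw [Polynomial.eq_C_of_natDegree_eq_zero hd] at hp hne
      have hc : p.coeff 0 ≠ 0 := by
        intro h; apply hne; rw [h, Polynomial.C_0]
      rw [Polynomial.aeval_C] at hp
      apply hg0
      have h1 : (fun t => g (-t)) =ᵐ[volume] 0 := by
        filter_upwards [hp] with t ht
        simp only [Module.algebraMap_end_apply, Pi.smul_apply, smul_eq_mul, Pi.zero_apply,
          mul_eq_zero, hc, false_or] at ht
        simpa [phi, ex_zero] using ht
      have h2 : ∀ᵐ t : ℝ, g (-(-t)) = 0 :=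
        (Measure.measurePreserving_neg (volume : Measure ℝ)).quasiMeasurePreserving.ae h1
      filter_upwards [h2] with t ht
      rw [neg_neg] at ht; exact ht
    · obtain ⟨lam, hlam⟩ := IsAlgClosed.exists_root p (by
        intro h; exact hd (Polynomial.natDegree_eq_of_degree_eq_some h))
      obtain ⟨q, hq⟩ := Polynomial.dvd_iff_isRoot.mpr hlam
      have hq0 : q ≠ 0 := by
        intro h; apply hne; rw [hq, h, mul_zero]
      have hdeg : q.natDegree < k := by
        rw [hk, hq, Polynomial.natDegree_mul (Polynomial.X_sub_C_ne_zero lam) hq0,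
          Polynomial.natDegree_X_sub_C]
        omega
      have hw := aeval_memLp v₁ v₂ hg q
      have heig : U v₁ v₂ (Polynomial.aeval (U v₁ v₂) q (phi v₁ v₂ g 0)) =ᵐ[volume]
          lam • (Polynomial.aeval (U v₁ v₂) q (phi v₁ v₂ g 0)) := by
        rw [hq, map_mul, Module.End.mul_apply, map_sub, Polynomial.aeval_X, Polynomial.aeval_C,
          LinearMap.sub_apply, Module.algebraMap_end_apply] at hp
        filter_upwards [hp] with t ht
        simp only [Pi.sub_apply, Pi.zero_apply] at ht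
        exact sub_eq_zero.mp ht
      have hzero := no_eigen v₁ v₂ hw hv heig
      exact ih q.natDegree hdeg q hzero hq0 rfl

/-! ### Reality on the lattice -/

lemma ex_int (n : ℤ) : ex (2 * Real.pi * n) = 1 := by
  unfold ex
  rw [exp_eq_one_iff]
  exact ⟨n, by push_cast; ring⟩

lemma exp_ex (ω t : ℝ) : exp (-(2 * Real.pi * ω * t * I)) = ex (-(2 * Real.pi * ω * t)) := by
  unfold ex; congr 1; push_cast; ring

lemma stft_real (g : ℝ → ℂ) (n : ℕ) (x ω : ℝ) (k : ℤ) (hk : x * v₂ - ω * v₁ = k) :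
    conj (ex (Real.pi * x * ω) * stft g (phi v₁ v₂ g n) x ω) =
      ex (Real.pi * x * ω) * stft g (phi v₁ v₂ g n) x ω := by
  have key : conj (stft g (phi v₁ v₂ g n) x ω) =
      ex (2 * Real.pi * (x * ω) - 2 * Real.pi * ((n : ℤ) * k : ℤ)) * stft g (phi v₁ v₂ g n) x ω := by
    unfold stft
    rw [← integral_conj, ← integral_sub_left_eq_self _ volume (x + n * v₁), ← integral_const_mul]
    congr 1
    funext t
    simp only [phi, exp_ex, map_mul, ex_conj, conj_conj]
    have e1 : (n : ℝ) * v₁ - (x + n * v₁ - t) = t - x := by ring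
    have e2 : x + (n : ℝ) * v₁ - t - x = n * v₁ - t := by ring
    rw [e1, e2]
    have e3 : ex (-(-(Real.pi * n ^ 2 * v₁ * v₂) + 2 * Real.pi * n * v₂ * (x + n * v₁ - t))) *
        ex (-(-(2 * Real.pi * ω * (x + n * v₁ - t)))) =
        ex (2 * Real.pi * (x * ω) - 2 * Real.pi * ((n : ℤ) * k : ℤ)) *
        (ex (-(Real.pi * n ^ 2 * v₁ * v₂) + 2 * Real.pi * n * v₂ * t) *
          ex (-(2 * Real.pi * ω * t))) := by
      rw [← ex_add, ← ex_add, ← ex_add]
      congr 1
      push_cast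
      rw [← hk]
      ring
    calc _ = (ex (-(-(Real.pi * n ^ 2 * v₁ * v₂) + 2 * Real.pi * n * v₂ * (x + n * v₁ - t))) *
        ex (-(-(2 * Real.pi * ω * (x + n * v₁ - t))))) * (conj (g (t - x)) * g (n * v₁ - t)) := by
          ring
      _ = _ := by rw [e3]; ring
  rw [map_mul, ex_conj, key, ← mul_assoc, ← ex_add]
  congr 1
  have e4 : -(Real.pi * x * ω) + (2 * Real.pi * (x * ω) - 2 * Real.pi * ((n : ℤ) * k : ℤ)) =
      Real.pi * x * ω + 2 * Real.pi * ((-((n : ℤ) * k) : ℤ) : ℝ) := by push_cast; ring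
  rw [e4, ex_add, ex_int, mul_one]

/-! ### Linearity -/

lemma stft_integrable {g f : ℝ → ℂ} (hg : MemLp g 2) (hf : MemLp f 2) (x ω : ℝ) :
    Integrable (fun t : ℝ => f t * conj (g (t - x)) * exp (-(2 * Real.pi * ω * t * I))) := by
  have h1 : MemLp (fun t => g (t - x)) 2 :=
    hg.comp_measurePreserving (measurePreserving_sub_right volume x)
  have h2 : MemLp (fun t => conj (g (t - x))) 2 := by
    refine h1.of_le (continuous_conj.comp_aestronglyMeasurable h1.1)
      (Filter.Eventually.of_forall fun t => ?_)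
    simp
  have h3 : Integrable (fun t => f t * conj (g (t - x))) := hf.integrable_mul h2
  refine h3.mono (h3.1.mul (by apply Continuous.aestronglyMeasurable; fun_prop))
    (Filter.Eventually.of_forall fun t => ?_)
  rw [norm_mul, exp_ex, ex_norm, mul_one]

/-- linear combinations -/
def comb {m : ℕ} (g : ℝ → ℂ) (c : Fin m → ℂ) (t : ℝ) : ℂ := ∑ n, c n * phi v₁ v₂ g n t

lemma comb_memLp {m : ℕ} {g : ℝ → ℂ} (hg : MemLp g 2) (c : Fin m → ℂ) :
    MemLp (comb v₁ v₂ g c) 2 := by
  unfold comb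
  apply memLp_finsetSum
  intro n _
  exact (phi_memLp v₁ v₂ hg n).const_mul _

lemma stft_comb {m : ℕ} {g : ℝ → ℂ} (hg : MemLp g 2) (c : Fin m → ℂ) (x ω : ℝ) :
    stft g (comb v₁ v₂ g c) x ω = ∑ n, c n * stft g (phi v₁ v₂ g n) x ω := by
  unfold stft comb
  simp_rw [← integral_const_mul]
  rw [← integral_finsetSum]
  · congr 1
    funext t
    rw [Finset.sum_mul, Finset.sum_mul]
    refine Finset.sum_congr rfl fun n _ => by ring
  · intro n _
    exact (stft_integrable hg (phi_memLp v₁ v₂ hg n) x ω).const_mul _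

lemma comb_zero {m : ℕ} {g : ℝ → ℂ} (hg : MemLp g 2) (hg0 : ¬ g =ᵐ[volume] 0)
    (hv : v₁ ≠ 0 ∨ v₂ ≠ 0) (c : Fin m → ℂ) (hc : comb v₁ v₂ g c =ᵐ[volume] 0) : c = 0 := by
  have h1 : Polynomial.aeval (U v₁ v₂) (∑ n : Fin m, Polynomial.C (c n) * Polynomial.X ^ (n : ℕ))
      (phi v₁ v₂ g 0) = comb v₁ v₂ g c := by
    rw [map_sum, LinearMap.sum_apply]
    funext t
    rw [Finset.sum_apply]
    unfold comb
    refine Finset.sum_congr rfl fun n _ => ?_
    rw [map_mul, Polynomial.aeval_C, map_pow, Polynomial.aeval_X, Module.End.mul_apply,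
      Module.algebraMap_end_apply, U_pow]
    rfl
  have h2 := lin_indep v₁ v₂ hg hg0 hv _ (h1 ▸ hc)
  funext j
  have h3 := congrArg (fun p : Polynomial ℂ => p.coeff (j : ℕ)) h2
  simp only [Polynomial.finsetSum_coeff, Polynomial.coeff_C_mul, Polynomial.coeff_X_pow,
    Polynomial.coeff_zero, mul_ite, mul_one, mul_zero] at h3
  rw [Finset.sum_eq_single j] at h3
  · simpa using h3
  · intro b _ hb
    rw [if_neg]
    intro h; exact hb (Fin.ext h.symm)
  · simp

/-- No lattice has finite deficiency for any window. -/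
theorem result (g : ℝ → ℂ) (hg : MemLp g 2) (A : Matrix (Fin 2) (Fin 2) ℝ) (hA : A.det ≠ 0)
    (P : Set (ℝ × ℝ)) (hP : P.Finite) : ¬ Uniqueness g (lattice A ∪ P) := by
  intro huniq
  by_cases hg0 : g =ᵐ[volume] 0
  · -- degenerate window
    have hz : ∀ f x ω, stft g f x ω = 0 := by
      intro f x ω
      have h1 : ∀ᵐ t : ℝ, g (t - x) = 0 :=
        (measurePreserving_sub_right (volume : Measure ℝ) x).quasiMeasurePreserving.ae hg0
      unfold stft
      apply integral_eq_zero_of_ae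
      filter_upwards [h1] with t ht
      simp [ht]
    obtain ⟨α, hα⟩ := huniq ((Set.Ioc (0:ℝ) 1).indicator fun _ => (1:ℂ)) 0
      (memLp_indicator_const 2 measurableSet_Ioc 1 (Or.inr (by simp)))
      MemLp.zero (fun z _ => by rw [hz, hz])
    have h2 : ∀ᵐ t : ℝ, t ∉ Set.Ioc (0:ℝ) 1 := by
      filter_upwards [hα] with t ht htm
      rw [Set.indicator_of_mem htm] at ht
      simp at ht
    rw [ae_iff] at h2
    have h3 : {a : ℝ | ¬ a ∉ Set.Ioc (0:ℝ) 1} = Set.Ioc 0 1 := by ext; simp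
    rw [h3, Real.volume_Ioc] at h2
    simp at h2
  · obtain ⟨v₁, hv₁⟩ : ∃ v₁, v₁ = A 0 0 / A.det := ⟨_, rfl⟩
    obtain ⟨v₂, hv₂⟩ : ∃ v₂, v₂ = A 1 0 / A.det := ⟨_, rfl⟩
    have hdet : A.det = A 0 0 * A 1 1 - A 0 1 * A 1 0 := Matrix.det_fin_two A
    have hv : v₁ ≠ 0 ∨ v₂ ≠ 0 := by
      by_contra hcon
      push Not at hcon
      rw [hv₁, hv₂, div_eq_zero_iff, div_eq_zero_iff] at hcon
      apply hA
      have h1 : A 0 0 = 0 := by tauto
      have h2 : A 1 0 = 0 := by tauto
      rw [hdet, h1, h2]; ring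
    have hlat : ∀ z ∈ lattice A, ∃ k : ℤ, z.1 * v₂ - z.2 * v₁ = k := by
      rintro z ⟨m, n, h1, h2⟩
      refine ⟨-n, ?_⟩
      rw [h1, h2, hv₁, hv₂]
      have h3 : (A 0 0 * m + A 0 1 * n) * (A 1 0 / A.det) - (A 1 0 * m + A 1 1 * n) * (A 0 0 / A.det) =
          -n * ((A 0 0 * A 1 1 - A 0 1 * A 1 0) / A.det) := by ring
      rw [h3, ← hdet, div_self hA]
      push_cast; ring
    -- linear algebra
    classical
    obtain ⟨N, hN⟩ : ∃ N, N = hP.toFinset.card := ⟨_, rfl⟩
    obtain ⟨Φ, hΦ⟩ : ∃ Φ : (Fin (2 * N + 2) → ℝ) →ₗ[ℝ] (hP.toFinset → ℂ),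
        ∀ a p, Φ a p = ∑ n, (a n : ℂ) * stft g (phi v₁ v₂ g n) (p : ℝ × ℝ).1 (p : ℝ × ℝ).2 := by
      refine ⟨{
        toFun := fun a p => ∑ n, (a n : ℂ) * stft g (phi v₁ v₂ g n) (p : ℝ × ℝ).1 (p : ℝ × ℝ).2
        map_add' := ?_
        map_smul' := ?_ }, fun a p => rfl⟩
      · intro a b
        funext p
        simp only [Pi.add_apply, ofReal_add, add_mul, Finset.sum_add_distrib]
      · intro c a
        funext p
        simp only [Pi.smul_apply, smul_eq_mul, ofReal_mul, RingHom.id_apply, Finset.mul_sum,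
          mul_assoc, real_smul]
    have hfr : 1 < Module.finrank ℝ (LinearMap.ker Φ) := by
      have h1 := LinearMap.finrank_range_add_finrank_ker Φ
      have h2 : Module.finrank ℝ (LinearMap.range Φ) ≤ Module.finrank ℝ (hP.toFinset → ℂ) :=
        Submodule.finrank_le _
      have h3 : Module.finrank ℝ (hP.toFinset → ℂ) = 2 * N := by
        rw [Module.finrank_pi_fintype, Finset.sum_const, Finset.card_univ, Complex.finrank_real_complex,
          Fintype.card_coe, ← hN, smul_eq_mul, mul_comm]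
      have h4 : Module.finrank ℝ (Fin (2 * N + 2) → ℝ) = 2 * N + 2 := by simp
      omega
    have : Nontrivial (LinearMap.ker Φ) :=
      Module.nontrivial_of_finrank_pos (R := ℝ) (by omega)
    obtain ⟨a, ha⟩ := exists_ne (0 : LinearMap.ker Φ)
    obtain ⟨b, hab⟩ := exists_linearIndependent_pair_of_one_lt_finrank hfr ha
    have hker : ∀ (c : LinearMap.ker Φ), ∀ p ∈ P,
        ∑ n, ((c : Fin (2 * N + 2) → ℝ) n : ℂ) * stft g (phi v₁ v₂ g n) p.1 p.2 = 0 := by
      intro c p hp
      have h1 := LinearMap.mem_ker.mp c.2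
      have h2 := congrFun h1 ⟨p, hP.mem_toFinset.mpr hp⟩
      rw [hΦ] at h2
      exact h2
    obtain ⟨α, hα⟩ := huniq
      (comb v₁ v₂ g (fun n => ((a : Fin (2 * N + 2) → ℝ) n : ℂ) + I * ((b : Fin (2 * N + 2) → ℝ) n : ℂ)))
      (comb v₁ v₂ g (fun n => ((a : Fin (2 * N + 2) → ℝ) n : ℂ) - I * ((b : Fin (2 * N + 2) → ℝ) n : ℂ)))
      (comb_memLp v₁ v₂ hg _) (comb_memLp v₁ v₂ hg _) (by
        intro z hz
        rw [stft_comb v₁ v₂ hg, stft_comb v₁ v₂ hg]
        simp only [add_mul, sub_mul, Finset.sum_add_distrib, Finset.sum_sub_distrib, mul_assoc I,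
          ← Finset.mul_sum]
        rcases hz with hz | hz
        · obtain ⟨k, hk⟩ := hlat z hz
          have hreal : ∀ c : Fin (2 * N + 2) → ℝ, ∃ s : ℝ, ex (Real.pi * z.1 * z.2) *
              ∑ n, (c n : ℂ) * stft g (phi v₁ v₂ g n) z.1 z.2 = s := by
            intro c
            rw [← conj_eq_iff_real, Finset.mul_sum, map_sum]
            refine Finset.sum_congr rfl fun n _ => ?_
            have h1 := stft_real v₁ v₂ g n z.1 z.2 k hk
            calc conj (ex (Real.pi * z.1 * z.2) * ((c n : ℂ) * stft g (phi v₁ v₂ g n) z.1 z.2))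
                = (c n : ℂ) * conj (ex (Real.pi * z.1 * z.2) * stft g (phi v₁ v₂ g n) z.1 z.2) := by
                  simp only [map_mul, conj_ofReal]; ring
              _ = _ := by rw [h1]; ring
          obtain ⟨s, hs⟩ := hreal a
          obtain ⟨r, hr⟩ := hreal b
          have hn : ∀ w : ℂ, ‖w‖ = ‖ex (Real.pi * z.1 * z.2) * w‖ := by
            intro w; rw [norm_mul, ex_norm, one_mul]
          rw [hn, hn (_ - _), mul_add, mul_sub, mul_left_comm _ I, hs, hr]
          have h2 : ((s : ℂ) - I * r) = conj ((s : ℂ) + I * r) := by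
            simp [sub_eq_add_neg]
          rw [h2, norm_conj]
        · rw [hker a z hz, hker b z hz]; simp)
    have hc := comb_zero v₁ v₂ hg hg0 hv (fun n => (((a : Fin (2 * N + 2) → ℝ) n : ℂ) +
      I * ((b : Fin (2 * N + 2) → ℝ) n : ℂ)) - exp (α * I) * (((a : Fin (2 * N + 2) → ℝ) n : ℂ) -
      I * ((b : Fin (2 * N + 2) → ℝ) n : ℂ))) (by
        filter_upwards [hα] with t ht
        simp only [comb, Pi.zero_apply] at ht ⊢
        simp only [sub_mul (_ + _), Finset.sum_sub_distrib, mul_assoc (exp _), ← Finset.mul_sum]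
        rw [ht, sub_self])
    have hrel : (Real.sin (α / 2)) • a - (Real.cos (α / 2)) • b = 0 := by
      apply Subtype.ext
      funext n
      have h1 := congrFun hc n
      simp only [Pi.zero_apply] at h1
      obtain ⟨x, hx⟩ : ∃ x, x = (a : Fin (2 * N + 2) → ℝ) n := ⟨_, rfl⟩
      obtain ⟨y, hy⟩ : ∃ y, y = (b : Fin (2 * N + 2) → ℝ) n := ⟨_, rfl⟩
      rw [← hx, ← hy] at h1
      show Real.sin (α / 2) * (a : Fin (2 * N + 2) → ℝ) n -
        Real.cos (α / 2) * (b : Fin (2 * N + 2) → ℝ) n = 0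
      rw [← hx, ← hy]
      have h2 : exp (α * I) = (Real.cos (α / 2) + Real.sin (α / 2) * I) ^ 2 := by
        rw [ofReal_cos, ofReal_sin, ← exp_mul_I, ← exp_nat_mul]
        congr 1; push_cast; ring
      have h3 : ((Real.cos (α / 2) : ℂ) + Real.sin (α / 2) * I) *
          ((Real.cos (α / 2) : ℂ) - Real.sin (α / 2) * I) = 1 := by
        have h4 := Real.sin_sq_add_cos_sq (α / 2)
        have h5 : ((Real.sin (α / 2) : ℂ)) ^ 2 + (Real.cos (α / 2) : ℂ) ^ 2 = 1 := by
          exact_mod_cast h4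
        linear_combination h5 - (Real.sin (α / 2) : ℂ) ^ 2 * I_sq
      have h6 : ((Real.sin (α / 2) * x - Real.cos (α / 2) * y : ℝ) : ℂ) = 0 := by
        have h7 : ((Real.cos (α / 2) : ℂ) - Real.sin (α / 2) * I) *
            ((x + I * y) - exp (α * I) * (x - I * y)) = 0 := by rw [h1, mul_zero]
        have h8 : ((Real.cos (α / 2) : ℂ) - Real.sin (α / 2) * I) *
            ((x + I * y) - exp (α * I) * (x - I * y)) =
            -2 * I * (Real.sin (α / 2) * x - Real.cos (α / 2) * y) := by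
          rw [h2]
          linear_combination (-(Real.cos (α / 2) + Real.sin (α / 2) * I : ℂ) * (x - I * y)) * h3 -
            0 * I_sq
        rw [h8] at h7
        push_cast
        rcases mul_eq_zero.mp h7 with h | h
        · simp at h
        · push_cast at h; exact h
      exact_mod_cast h6
    rw [LinearIndependent.pair_iff] at hab
    obtain ⟨h1, h2⟩ := hab (Real.sin (α / 2)) (-Real.cos (α / 2)) (by
      rw [neg_smul, ← sub_eq_add_neg]; exact hrel)
    have h3 := Real.sin_sq_add_cos_sq (α / 2)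
    rw [h1, neg_eq_zero.mp h2] at h3
    norm_num at h3

end Pool.Agent.Results.MP_19ca7b_an.NoFiniteDeficiency
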